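import Pool.Agent.Work.MP_8f87b2_co.Upper

/-!
# From a cyclic sequence through the shift classes to a symmetric Hamilton cycle
-/

namespace Pool.Agent.Work.MP_8f87b2_co

open Finset

variable {k : ℕ}

/-- the shift by `v` as an automorphism of `O_k` -/
def shift (k : ℕ) (v : ZMod (2 * k + 1)) : oddGraph k ≃g oddGraph k :=
  permHom k (Equiv.addRight v)

theorem mem_shift (v : ZMod (2 * k + 1)) (A : V k) (x : ZMod (2 * k + 1)) :
    x ∈ (shift k v A).1 ↔ x - v ∈ A.1 := by
  unfold shift
  rw [mem_permHom]
  simp [sub_eq_add_neg]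

theorem shift_add (u v : ZMod (2 * k + 1)) (A : V k) :
    shift k u (shift k v A) = shift k (u + v) A := by
  apply Subtype.ext; ext x
  rw [mem_shift, mem_shift, mem_shift, sub_sub]

theorem shift_zero (A : V k) : shift k 0 A = A := by
  apply Subtype.ext; ext x
  rw [mem_shift, sub_zero]

theorem shift_adj (v : ZMod (2 * k + 1)) (A B : V k) :
    (oddGraph k).Adj (shift k v A) (shift k v B) ↔ (oddGraph k).Adj A B :=
  (shift k v).map_rel_iff

theorem addRight_pow {n : ℕ} (v : ZMod n) (j : ℕ) :
    (Equiv.addRight v : Equiv.Perm (ZMod n)) ^ j = Equiv.addRight (j • v) := by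
  induction j with
  | zero => ext x; simp
  | succ j ih => rw [pow_succ, ih]; ext x; simp [add_mul]; ring

theorem orderOf_shift (hk : 1 ≤ k) {v : ZMod (2 * k + 1)} (hv : IsUnit v) :
    orderOf (shift k v) = 2 * k + 1 := by
  unfold shift
  rw [orderOf_injective (permHom k) (permHom_injective hk)]
  apply Nat.dvd_antisymm
  · apply orderOf_dvd_of_pow_eq_one
    rw [addRight_pow, nsmul_eq_mul, ZMod.natCast_self, zero_mul]
    ext x; simp
  · have h := pow_orderOf_eq_one (Equiv.addRight v : Equiv.Perm (ZMod (2 * k + 1)))
    rw [addRight_pow] at h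
    have h1 := congrArg (fun e : Equiv.Perm (ZMod (2 * k + 1)) => e 0) h
    simp only [Equiv.coe_addRight, zero_add, Equiv.Perm.coe_one, id_eq, nsmul_eq_mul] at h1
    have h2 : ((orderOf (Equiv.addRight v : Equiv.Perm (ZMod (2 * k + 1))) : ℕ) :
        ZMod (2 * k + 1)) = 0 := by
      obtain ⟨u, rfl⟩ := hv
      have := congrArg (fun z => z * (↑u⁻¹ : ZMod (2 * k + 1))) h1
      simpa [mul_assoc] using this
    rwa [ZMod.natCast_eq_zero_iff] at h2

theorem card_V (k : ℕ) : Fintype.card (V k) = (2 * k + 1).choose k := by
  rw [Fintype.card_finset_len, card_X]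

/-- A sequence `w 0, .., w (M-1), w M = w 0 + v` of vertices, consecutive ones adjacent, whose first
`M` members represent pairwise different shift classes, `M = C(2k+1,k)/(2k+1)`, `v` a unit, gives a
Hamilton cycle of `O_k` with a cyclic symmetry of order `2k+1`. -/
theorem lower_of_seq (hk : 1 ≤ k) {M : ℕ} (w : ℕ → V k) (v : ZMod (2 * k + 1)) (hv : IsUnit v)
    (hadj : ∀ i, i < M → (oddGraph k).Adj (w i) (w (i + 1)))
    (hend : w M = shift k v (w 0))
    (hinj : ∀ i j, i < M → j < M → ∀ t, shift k t (w i) = w j → i = j ∧ t = 0)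
    (hcard : M * (2 * k + 1) = (2 * k + 1).choose k) :
    2 * k + 1 ∈ compressionSet (oddGraph k) := by
  classical
  have hchoose : 0 < (2 * k + 1).choose k := Nat.choose_pos (by omega)
  have hM : 0 < M := by
    rcases Nat.eq_zero_or_pos M with h | h
    · rw [h, zero_mul] at hcard; omega
    · exact h
  -- the periodic extension
  let W : ℕ → V k := fun i => shift k ((i / M : ℕ) * v) (w (i % M))
  have hWadj : ∀ i, (oddGraph k).Adj (W i) (W (i + 1)) := by
    intro i
    have hlt := Nat.mod_lt i hM
    have hi := Nat.div_add_mod i M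
    rcases Nat.lt_or_ge (i % M + 1) M with h | h
    · have h1 : (i + 1) / M = i / M := by
        rw [Nat.div_eq_iff hM]
        have : i / M * M = M * (i / M) := Nat.mul_comm _ _
        omega
      have h2 : (i + 1) % M = i % M + 1 := by
        have h3 := Nat.div_add_mod (i + 1) M
        rw [h1] at h3; omega
      change (oddGraph k).Adj (shift k ((i / M : ℕ) * v) (w (i % M)))
        (shift k (((i + 1) / M : ℕ) * v) (w ((i + 1) % M)))
      rw [h1, h2, shift_adj]
      exact hadj _ hlt
    · have h0 : i % M + 1 = M := by omega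
      have h1 : (i + 1) / M = i / M + 1 := by
        rw [Nat.div_eq_iff hM]
        have : (i / M + 1) * M = M * (i / M) + M := by ring
        omega
      have h2 : (i + 1) % M = 0 := by
        have h3 := Nat.div_add_mod (i + 1) M
        rw [h1] at h3
        have : M * (i / M + 1) = M * (i / M) + M := by ring
        omega
      change (oddGraph k).Adj (shift k ((i / M : ℕ) * v) (w (i % M)))
        (shift k (((i + 1) / M : ℕ) * v) (w ((i + 1) % M)))
      rw [h1, h2]
      have h3 : shift k (((i / M + 1 : ℕ) : ZMod (2 * k + 1)) * v) (w 0) =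
          shift k ((i / M : ℕ) * v) (w M) := by
        rw [hend, shift_add]; congr 1; push_cast; ring
      rw [h3, shift_adj]
      have := hadj _ hlt
      rwa [h0] at this
  have hN : (2 * k + 1).choose k = Fintype.card (V k) := (card_V k).symm
  set N := M * (2 * k + 1) with hNdef
  have hN3 : 3 ≤ N := by
    rw [hNdef]; nlinarith
  haveI : NeZero N := ⟨by omega⟩
  have hWper : ∀ i, W (i + N) = W i := by
    intro i
    have h1 : (i + N) / M = i / M + (2 * k + 1) := by
      rw [hNdef, Nat.add_mul_div_left _ _ hM]
    have h2 : (i + N) % M = i % M := by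
      rw [hNdef, Nat.add_mul_mod_self_left]
    change shift k (((i + N) / M : ℕ) * v) (w ((i + N) % M)) = _
    rw [h1, h2]
    change _ = shift k ((i / M : ℕ) * v) (w (i % M))
    congr 2
    have h0 : ((2 * k + 1 : ℕ) : ZMod (2 * k + 1)) = 0 := ZMod.natCast_self _
    rw [Nat.cast_add, h0, add_zero]
  have hWmod : ∀ i, W (i % N) = W i := by
    intro i
    conv_rhs => rw [← Nat.mod_add_div i N]
    have : ∀ q, W (i % N + N * q) = W (i % N) := by
      intro q
      induction q with
      | zero => rw [mul_zero, add_zero]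
      | succ q ih => rw [Nat.mul_succ, ← add_assoc, hWper, ih]
    rw [this]
  let c : ZMod N → V k := fun i => W i.val
  have hcW : ∀ i : ℕ, c (i : ZMod N) = W i := by
    intro i
    change W (i : ZMod N).val = W i
    rw [ZMod.val_natCast, hWmod]
  have hcinj : Function.Injective c := by
    intro i j hij
    have hi := ZMod.val_lt i
    have hj := ZMod.val_lt j
    change shift k ((i.val / M : ℕ) * v) (w (i.val % M)) =
      shift k ((j.val / M : ℕ) * v) (w (j.val % M)) at hij
    have h1 : shift k (-((j.val / M : ℕ) * v) + (i.val / M : ℕ) * v) (w (i.val % M)) =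
        w (j.val % M) := by
      rw [← shift_add, hij, shift_add, neg_add_cancel, shift_zero]
    obtain ⟨h2, h3⟩ := hinj _ _ (Nat.mod_lt _ hM) (Nat.mod_lt _ hM) _ h1
    have h4 : ((i.val / M : ℕ) : ZMod (2 * k + 1)) = ((j.val / M : ℕ) : ZMod (2 * k + 1)) := by
      obtain ⟨u, rfl⟩ := hv
      have h5 : (((i.val / M : ℕ) : ZMod (2 * k + 1)) - ((j.val / M : ℕ) : ZMod (2 * k + 1))) *
          (u : ZMod (2 * k + 1)) = 0 := by rw [← h3]; ring
      have := congrArg (fun z => z * (↑u⁻¹ : ZMod (2 * k + 1))) h5
      simp only [mul_assoc, Units.mul_inv, mul_one, zero_mul] at this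
      exact sub_eq_zero.1 this
    have hid : i.val / M < 2 * k + 1 := by
      rw [Nat.div_lt_iff_lt_mul hM, mul_comm]; exact hi
    have hjd : j.val / M < 2 * k + 1 := by
      rw [Nat.div_lt_iff_lt_mul hM, mul_comm]; exact hj
    have h6 : i.val / M = j.val / M := by
      have := congrArg ZMod.val h4
      rwa [ZMod.val_natCast, ZMod.val_natCast, Nat.mod_eq_of_lt hid, Nat.mod_eq_of_lt hjd] at this
    apply ZMod.val_injective
    rw [← Nat.div_add_mod i.val M, ← Nat.div_add_mod j.val M, h6, h2]
  have hcbij : Function.Bijective c := by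
    rw [Fintype.bijective_iff_injective_and_card]
    exact ⟨hcinj, by rw [ZMod.card, hcard, hN]⟩
  have hcadj : ∀ i, (oddGraph k).Adj (c i) (c (i + 1)) := by
    intro i
    have h1 : c i = W i.val := rfl
    have h2 : c (i + 1) = W (i.val + 1) := by
      rw [← hcW]; congr 1; push_cast; rw [ZMod.natCast_zmod_val]
    rw [h1, h2]; exact hWadj _
  let C : HamCycle (oddGraph k) := ⟨N, hN3, c, hcbij, hcadj⟩
  have hrot : ∀ i : ZMod N, shift k v (c i) = c (i + (M : ZMod N)) := by
    intro i
    have h2 : c (i + (M : ZMod N)) = W (i.val + M) := by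
      rw [← hcW]; congr 1; push_cast; rw [ZMod.natCast_zmod_val]
    rw [h2]
    change shift k v (shift k ((i.val / M : ℕ) * v) (w (i.val % M))) =
      shift k (((i.val + M) / M : ℕ) * v) (w ((i.val + M) % M))
    rw [Nat.add_div_right _ hM, Nat.add_mod_right, shift_add]
    congr 2; push_cast; ring
  have hpres1 : Preserves (shift k v) C := by
    unfold Preserves
    ext e
    constructor
    · rintro ⟨e', ⟨i, rfl⟩, rfl⟩
      refine ⟨i + (M : ZMod N), ?_⟩
      change Sym2.map (shift k v) s(c i, c (i + 1)) = _
      rw [Sym2.map_mk]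
      change s(shift k v (c i), shift k v (c (i + 1))) = s(c (i + M), c (i + M + 1))
      have e2 : i + 1 + (M : ZMod N) = i + M + 1 := add_right_comm i 1 _
      rw [hrot, hrot, e2]
    · rintro ⟨i, rfl⟩
      refine ⟨s(c (i - M), c (i - M + 1)), ⟨i - M, rfl⟩, ?_⟩
      rw [Sym2.map_mk]
      change s(shift k v (c (i - M)), shift k v (c (i - M + 1))) = s(c i, c (i + 1))
      have e1 : i - (M : ZMod N) + M = i := sub_add_cancel i _
      have e2 : i - (M : ZMod N) + 1 + M = i + 1 := by
        rw [add_right_comm, e1]
      rw [hrot, hrot, e1, e2]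
  refine ⟨C, Subgroup.zpowers (shift k v), inferInstance, ?_, ?_⟩
  · rw [Nat.card_zpowers, orderOf_shift hk hv]
  · -- the automorphisms preserving C form a subgroup
    let S : Subgroup (oddGraph k ≃g oddGraph k) :=
      { carrier := {φ | Preserves φ C}
        one_mem' := by
          change Preserves 1 C
          unfold Preserves
          have : (Sym2.map ((1 : oddGraph k ≃g oddGraph k) : V k → V k)) = id := by
            funext e; exact Sym2.inductionOn e (fun a b => rfl)
          rw [this, Set.image_id]
        mul_mem' := by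
          intro φ ψ h1 h2
          change Preserves (φ * ψ) C
          unfold Preserves at *
          have : (Sym2.map ((φ * ψ : oddGraph k ≃g oddGraph k) : V k → V k)) =
              (Sym2.map φ) ∘ (Sym2.map ψ) := by
            funext e; exact Sym2.inductionOn e (fun a b => rfl)
          rw [this, Set.image_comp, h2, h1]
        inv_mem' := by
          intro φ h1
          change Preserves φ⁻¹ C
          unfold Preserves at *
          have : (Sym2.map ((φ⁻¹ : oddGraph k ≃g oddGraph k) : V k → V k)) ∘ (Sym2.map φ) = id := by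
            funext e
            refine Sym2.inductionOn e (fun a b => ?_)
            change s(φ.symm (φ a), φ.symm (φ b)) = s(a, b)
            rw [φ.symm_apply_apply, φ.symm_apply_apply]
          conv_lhs => rw [← h1]
          rw [← Set.image_comp, this, Set.image_id] }
    intro φ hφ
    have h1 : shift k v ∈ S := hpres1
    exact (Subgroup.zpowers_le.2 h1) hφ

end Pool.Agent.Work.MP_8f87b2_co
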