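import Pool.Agent.Work.MP_8f87b2_co.Defs

/-!
# Every automorphism of the odd graph is induced by a permutation of the ground set
-/

namespace Pool.Agent.Work.MP_8f87b2_co

open Finset

variable {k : ℕ}

theorem card_X (k : ℕ) : Fintype.card (ZMod (2 * k + 1)) = 2 * k + 1 := ZMod.card _

/-- the automorphism of `O_k` given by a permutation of the ground set -/
def permHom (k : ℕ) : Equiv.Perm (ZMod (2 * k + 1)) →* (oddGraph k ≃g oddGraph k) where
  toFun σ :=
    { toFun := fun A => ⟨A.1.map σ.toEmbedding, by rw [card_map]; exact A.2⟩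
      invFun := fun A => ⟨A.1.map σ.symm.toEmbedding, by rw [card_map]; exact A.2⟩
      left_inv := by
        intro A; apply Subtype.ext; ext x; simp
      right_inv := by
        intro A; apply Subtype.ext; ext x; simp
      map_rel_iff' := by
        intro A B
        simp only [oddGraph, Equiv.coe_fn_mk, ne_eq, Subtype.mk.injEq, Finset.map_inj,
          Finset.disjoint_map]
        rw [Subtype.ext_iff] }
  map_one' := by
    ext A x
    change x ∈ A.1.map (1 : Equiv.Perm (ZMod (2 * k + 1))).toEmbedding ↔ x ∈ A.1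
    rw [Finset.mem_map_equiv]; rfl
  map_mul' σ τ := by
    ext A x
    change x ∈ A.1.map (σ * τ).toEmbedding ↔ x ∈ (A.1.map τ.toEmbedding).map σ.toEmbedding
    rw [Finset.mem_map_equiv, Finset.mem_map_equiv, Finset.mem_map_equiv]; rfl

theorem permHom_val (σ : Equiv.Perm (ZMod (2 * k + 1))) (A : V k) :
    (permHom k σ A).1 = A.1.map σ.toEmbedding := rfl

theorem mem_permHom (σ : Equiv.Perm (ZMod (2 * k + 1))) (A : V k) (x : ZMod (2 * k + 1)) :
    x ∈ (permHom k σ A).1 ↔ σ.symm x ∈ A.1 := by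
  rw [permHom_val, Finset.mem_map_equiv]

/-- the neighbour of `A` which misses `p ∉ A` -/
noncomputable def nb (A : V k) (p : ZMod (2 * k + 1)) : V k := by
  classical
  exact if h : p ∉ A.1 then ⟨(insert p A.1)ᶜ, by
    rw [card_compl, card_X, card_insert_of_notMem h, A.2]; omega⟩ else A

theorem nb_val (A : V k) {p : ZMod (2 * k + 1)} (h : p ∉ A.1) : (nb A p).1 = (insert p A.1)ᶜ := by
  unfold nb; rw [dif_pos h]

theorem mem_nb (A : V k) {p x : ZMod (2 * k + 1)} (h : p ∉ A.1) :
    x ∈ (nb A p).1 ↔ x ≠ p ∧ x ∉ A.1 := by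
  rw [nb_val A h, mem_compl, mem_insert, not_or]

theorem adj_of_disjoint (hk : 1 ≤ k) {A B : V k} (h : Disjoint A.1 B.1) : (oddGraph k).Adj A B := by
  refine ⟨?_, h⟩
  rintro rfl
  rw [disjoint_self] at h
  have := A.2
  rw [show A.1 = ∅ from h, card_empty] at this
  omega

theorem adj_nb (hk : 1 ≤ k) (A : V k) {p : ZMod (2 * k + 1)} (h : p ∉ A.1) :
    (oddGraph k).Adj A (nb A p) := by
  apply adj_of_disjoint hk
  rw [disjoint_left]
  intro x hx hx'
  exact ((mem_nb A h).1 hx').2 hx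

theorem exists_nb {A B : V k} (h : (oddGraph k).Adj A B) : ∃ p, p ∉ A.1 ∧ B = nb A p := by
  classical
  have hd := h.2
  have hsub : B.1 ⊆ A.1ᶜ := by
    intro x hx; rw [mem_compl]; exact fun h' => (disjoint_left.1 hd) h' hx
  have hc : (A.1ᶜ \ B.1).card = 1 := by
    rw [card_sdiff_of_subset hsub, card_compl, card_X, A.2, B.2]; omega
  obtain ⟨p, hp⟩ := card_eq_one.1 hc
  have hp' : p ∈ A.1ᶜ \ B.1 := by rw [hp]; exact mem_singleton_self p
  rw [mem_sdiff, mem_compl] at hp'
  refine ⟨p, hp'.1, Subtype.ext ?_⟩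
  ext x
  rw [mem_nb A hp'.1]
  constructor
  · intro hx
    exact ⟨fun h' => hp'.2 (h' ▸ hx), mem_compl.1 (hsub hx)⟩
  · rintro ⟨h1, h2⟩
    by_contra h3
    have : x ∈ A.1ᶜ \ B.1 := mem_sdiff.2 ⟨mem_compl.2 h2, h3⟩
    rw [hp, mem_singleton] at this
    exact h1 this

/-- the relation 'have a common neighbour' (or equal) -/
def near (A B : V k) : Prop := (A.1 ∪ B.1).card ≤ k + 1

theorem near_iff (hk : 1 ≤ k) (A B : V k) :
    near A B ↔ ∃ D, (oddGraph k).Adj D A ∧ (oddGraph k).Adj D B := by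
  classical
  constructor
  · intro h
    have h1 : k ≤ ((A.1 ∪ B.1)ᶜ).card := by
      rw [card_compl, card_X]; unfold near at h; omega
    obtain ⟨D, hD, hDc⟩ := exists_subset_card_eq h1
    refine ⟨⟨D, hDc⟩, adj_of_disjoint hk ?_, adj_of_disjoint hk ?_⟩
    · rw [disjoint_left]; intro x hx hx'
      exact (mem_compl.1 (hD hx)) (mem_union_left _ hx')
    · rw [disjoint_left]; intro x hx hx'
      exact (mem_compl.1 (hD hx)) (mem_union_right _ hx')
  · rintro ⟨D, h1, h2⟩
    have hsub : D.1 ⊆ (A.1 ∪ B.1)ᶜ := by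
      intro x hx
      rw [mem_compl, mem_union]
      rintro (h | h)
      · exact (disjoint_left.1 h1.2) hx h
      · exact (disjoint_left.1 h2.2) hx h
    have := card_le_card hsub
    rw [D.2, card_compl, card_X] at this
    have h3 : (A.1 ∪ B.1).card ≤ 2 * k + 1 :=
      (card_le_univ _).trans_eq (card_X k)
    unfold near; omega

theorem near_map (hk : 1 ≤ k) (ψ : oddGraph k ≃g oddGraph k) {A B : V k} (h : near A B) :
    near (ψ A) (ψ B) := by
  rw [near_iff hk] at h ⊢
  obtain ⟨D, h1, h2⟩ := h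
  exact ⟨ψ D, ψ.map_rel_iff.2 h1, ψ.map_rel_iff.2 h2⟩

theorem near_nb (X Y : V k) {p q : ZMod (2 * k + 1)} (hp : p ∉ X.1) (hq : q ∉ Y.1) :
    near (nb X p) (nb Y q) ↔ k ≤ (insert p X.1 ∩ insert q Y.1).card := by
  classical
  unfold near
  rw [nb_val X hp, nb_val Y hq, ← compl_inter, card_compl, card_X]
  have h3 : (insert p X.1 ∩ insert q Y.1).card ≤ 2 * k + 1 :=
    (card_le_univ _).trans_eq (card_X k)
  omega

/-- recognition lemma -/
theorem fix_of_unique (hk : 1 ≤ k) (ψ : oddGraph k ≃g oddGraph k) {D F G E : V k}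
    (hD : ψ D = D) (hF : ψ F = F) (hG : ψ G = G) (hE : (oddGraph k).Adj D E) (hn : near E F)
    (hne : E ≠ G)
    (hu : ∀ E', (oddGraph k).Adj D E' → near E' F → E' = E ∨ E' = G) : ψ E = E := by
  have h1 : (oddGraph k).Adj D (ψ E) := by
    have := ψ.map_rel_iff.2 hE
    rwa [hD] at this
  have h2 : near (ψ E) F := by
    have := near_map hk ψ hn
    rwa [hF] at this
  rcases hu _ h1 h2 with h | h
  · exact h
  · exfalso
    apply hne
    apply ψ.injective
    rw [h, hG]

theorem not_mem_nb_self (A : V k) {p : ZMod (2 * k + 1)} (h : p ∉ A.1) : p ∉ (nb A p).1 := by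
  rw [mem_nb A h]; exact fun h' => h'.1 rfl

theorem not_mem_nb_of_mem (A : V k) {p c : ZMod (2 * k + 1)} (h : p ∉ A.1) (hc : c ∈ A.1) :
    c ∉ (nb A p).1 := by
  rw [mem_nb A h]; exact fun h' => h'.2 hc

theorem fix_step (hk : 1 ≤ k) (ψ : oddGraph k ≃g oddGraph k) (G : V k)
    {a b c : ZMod (2 * k + 1)} (ha : a ∉ G.1) (hb : b ∉ G.1) (hab : a ≠ b) (hc : c ∈ G.1)
    (h1 : ψ G = G) (h2 : ψ (nb G a) = nb G a) (h3 : ψ (nb (nb G b) c) = nb (nb G b) c) :
    ψ (nb (nb G a) c) = nb (nb G a) c := by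
  classical
  have hca : c ∉ (nb G a).1 := not_mem_nb_of_mem G ha hc
  have hcb : c ∉ (nb G b).1 := not_mem_nb_of_mem G hb hc
  have hac : a ≠ c := fun h => ha (h ▸ hc)
  refine fix_of_unique hk ψ (D := nb G a) (F := nb (nb G b) c) (G := G) h2 h3 h1
    (adj_nb hk _ hca) ?_ ?_ ?_
  · rw [near_nb _ _ hca hcb]
    have hsub : insert c ((insert a (insert b G.1))ᶜ) ⊆
        insert c (nb G a).1 ∩ insert c (nb G b).1 := by
      intro x hx
      rw [mem_insert, mem_compl, mem_insert, mem_insert, not_or, not_or] at hx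
      rw [mem_inter, mem_insert, mem_insert, mem_nb G ha, mem_nb G hb]
      rcases hx with h | ⟨h, h', h''⟩
      · exact ⟨Or.inl h, Or.inl h⟩
      · exact ⟨Or.inr ⟨h, h''⟩, Or.inr ⟨h', h''⟩⟩
    refine le_trans ?_ (card_le_card hsub)
    rw [card_insert_of_notMem, card_compl, card_X, card_insert_of_notMem,
      card_insert_of_notMem hb, G.2]
    · omega
    · rw [mem_insert, not_or]; exact ⟨hab, ha⟩
    · rw [mem_compl, not_not, mem_insert, mem_insert]; exact Or.inr (Or.inr hc)
  · intro h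
    apply ha
    rw [← h, mem_nb _ hca]
    exact ⟨hac, not_mem_nb_self G ha⟩
  · intro E' hE' hn
    obtain ⟨r, hr, rfl⟩ := exists_nb hE'
    by_cases hra : r = a
    · right
      subst hra
      apply Subtype.ext
      ext x
      rw [mem_nb _ hr, mem_nb G ha]
      constructor
      · rintro ⟨h4, h5⟩
        by_contra h6
        exact h5 ⟨h4, h6⟩
      · intro h4
        exact ⟨fun h5 => ha (h5 ▸ h4), fun h5 => h5.2 h4⟩
    · left
      by_contra hne
      have hrc : r ≠ c := fun h => hne (by rw [h])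
      have hrG : r ∈ G.1 := by
        rw [mem_nb G ha] at hr
        by_contra h
        exact hr ⟨hra, h⟩
      rw [near_nb _ _ hr hcb] at hn
      have hsub : insert r (nb G a).1 ∩ insert c (nb G b).1 ⊆ (insert a (insert b G.1))ᶜ := by
        intro x hx
        rw [mem_inter, mem_insert, mem_insert, mem_nb G ha, mem_nb G hb] at hx
        rw [mem_compl, mem_insert, mem_insert, not_or, not_or]
        rcases hx with ⟨h4, h5⟩
        rcases h4 with h4 | h4
        · subst h4
          rcases h5 with h5 | h5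
          · exact absurd h5 hrc
          · exact absurd hrG h5.2
        · rcases h5 with h5 | h5
          · subst h5
            exact absurd hc h4.2
          · exact ⟨h4.1, h5.1, h5.2⟩
      have h6 := le_trans hn (card_le_card hsub)
      rw [card_compl, card_X, card_insert_of_notMem, card_insert_of_notMem hb, G.2] at h6
      · omega
      · rw [mem_insert, not_or]; exact ⟨hab, ha⟩

/-- `ψ` fixes the ball of radius 2 about `G` -/
def FixBall (ψ : oddGraph k ≃g oddGraph k) (G : V k) : Prop :=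
  ψ G = G ∧ (∀ a, a ∉ G.1 → ψ (nb G a) = nb G a) ∧
    ∀ a, a ∉ G.1 → ∀ c ∈ G.1, ψ (nb (nb G a) c) = nb (nb G a) c

theorem fixBall_of (hk : 1 ≤ k) (ψ : oddGraph k ≃g oddGraph k) (G : V k) (h1 : ψ G = G)
    (h2 : ∀ a, a ∉ G.1 → ψ (nb G a) = nb G a) {b : ZMod (2 * k + 1)} (hb : b ∉ G.1)
    (h3 : ∀ c ∈ G.1, ψ (nb (nb G b) c) = nb (nb G b) c) : FixBall ψ G := by
  refine ⟨h1, h2, fun a ha c hc => ?_⟩
  by_cases hab : a = b
  · subst hab; exact h3 c hc
  · exact fix_step hk ψ G ha hb hab hc h1 (h2 a ha) (h3 c hc)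

theorem nb_nb_self (A : V k) {p : ZMod (2 * k + 1)} (h : p ∉ A.1) : nb (nb A p) p = A := by
  apply Subtype.ext
  ext x
  rw [mem_nb _ (not_mem_nb_self A h), mem_nb A h]
  constructor
  · rintro ⟨h4, h5⟩
    by_contra h6
    exact h5 ⟨h4, h6⟩
  · intro h4
    exact ⟨fun h5 => h (h5 ▸ h4), fun h5 => h5.2 h4⟩

theorem fixBall_nb (hk : 1 ≤ k) (ψ : oddGraph k ≃g oddGraph k) (G : V k) (h : FixBall ψ G)
    {p : ZMod (2 * k + 1)} (hp : p ∉ G.1) : FixBall ψ (nb G p) := by
  have hpp := not_mem_nb_self G hp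
  refine fixBall_of hk ψ (nb G p) (h.2.1 p hp) ?_ hpp ?_
  · intro a ha
    by_cases hap : a = p
    · subst hap; rw [nb_nb_self G hp]; exact h.1
    · have haG : a ∈ G.1 := by
        rw [mem_nb G hp] at ha
        by_contra h'
        exact ha ⟨hap, h'⟩
      exact h.2.2 p hp a haG
  · intro c hc
    rw [nb_nb_self G hp]
    rw [mem_nb G hp] at hc
    exact h.2.1 c hc.2

theorem fixBall_all (hk : 1 ≤ k) (ψ : oddGraph k ≃g oddGraph k) (G : V k) (h : FixBall ψ G)
    (B : V k) : FixBall ψ B := by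
  classical
  have key : ∀ (n : ℕ) (A : V k), FixBall ψ A → (A.1 \ B.1).card = n → FixBall ψ B := by
    intro n
    induction n with
    | zero =>
      intro A hA h0
      rw [card_eq_zero, sdiff_eq_empty_iff_subset] at h0
      have : A = B := Subtype.ext (eq_of_subset_of_card_le h0 (by rw [A.2, B.2]))
      rwa [this] at hA
    | succ n ih =>
      intro A hA h0
      have hne : (A.1 \ B.1).Nonempty := by rw [← card_pos, h0]; omega
      obtain ⟨q, hq⟩ := hne
      rw [mem_sdiff] at hq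
      have h1 : (B.1 \ A.1).card = (A.1 \ B.1).card := by
        have e1 := card_sdiff_add_card_inter A.1 B.1
        have e2 := card_sdiff_add_card_inter B.1 A.1
        rw [A.2] at e1
        rw [B.2, inter_comm] at e2
        omega
      have hne' : (B.1 \ A.1).Nonempty := by rw [← card_pos, h1, h0]; omega
      obtain ⟨p, hp⟩ := hne'
      rw [mem_sdiff] at hp
      have hA1 := fixBall_nb hk ψ A hA hp.2
      have hqn : q ∉ (nb A p).1 := not_mem_nb_of_mem A hp.2 hq.1
      have hA2 := fixBall_nb hk ψ (nb A p) hA1 hqn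
      apply ih (nb (nb A p) q) hA2
      have he : (nb (nb A p) q).1 \ B.1 = (A.1 \ B.1).erase q := by
        ext x
        rw [mem_sdiff, mem_nb _ hqn, mem_nb A hp.2, mem_erase, mem_sdiff]
        constructor
        · rintro ⟨⟨h2, h3⟩, h4⟩
          refine ⟨h2, ?_, h4⟩
          by_contra h5
          apply h3
          exact ⟨fun h6 => h4 (h6 ▸ hp.1), h5⟩
        · rintro ⟨h2, h3, h4⟩
          exact ⟨⟨h2, fun h5 => h5.2 h3⟩, h4⟩
      rw [he, card_erase_of_mem (mem_sdiff.2 hq), h0]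
      rfl
  exact key _ G h rfl

/-- every automorphism of the odd graph comes from a permutation of the ground set -/
theorem exists_perm (hk : 1 ≤ k) (φ : oddGraph k ≃g oddGraph k) :
    ∃ σ : Equiv.Perm (ZMod (2 * k + 1)), φ = permHom k σ := by
  classical
  -- a base vertex
  obtain ⟨S, -, hS⟩ := exists_subset_card_eq (s := (univ : Finset (ZMod (2 * k + 1)))) (n := k)
    (by rw [card_univ, card_X]; omega)
  let A : V k := ⟨S, hS⟩
  have hne : (A.1ᶜ).Nonempty := by
    rw [← card_pos, card_compl, card_X, A.2]; omega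
  obtain ⟨p0, hp0⟩ := hne
  rw [mem_compl] at hp0
  -- f on the complement of A
  have hf : ∀ p, ∃ q, p ∉ A.1 → q ∉ (φ A).1 ∧ φ (nb A p) = nb (φ A) q := by
    intro p
    by_cases hp : p ∈ A.1
    · exact ⟨0, fun h => absurd hp h⟩
    · obtain ⟨q, hq, hq'⟩ := exists_nb (φ.map_rel_iff.2 (adj_nb hk A hp))
      exact ⟨q, fun _ => ⟨hq, hq'⟩⟩
  choose f hf using hf
  have hq0 := (hf p0 hp0).1
  have hφ0 := (hf p0 hp0).2
  have hg : ∀ q, ∃ r, q ∈ A.1 → r ∈ (φ A).1 ∧ φ (nb (nb A p0) q) = nb (nb (φ A) (f p0)) r := by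
    intro q
    by_cases hq : q ∈ A.1
    · have hq1 : q ∉ (nb A p0).1 := not_mem_nb_of_mem A hp0 hq
      have had := φ.map_rel_iff.2 (adj_nb hk (nb A p0) hq1)
      rw [hφ0] at had
      obtain ⟨r, hr, hr'⟩ := exists_nb had
      refine ⟨r, fun _ => ⟨?_, hr'⟩⟩
      rw [mem_nb _ hq0] at hr
      by_contra hrA
      have hrf : r = f p0 := by
        by_contra h; exact hr ⟨h, hrA⟩
      rw [hrf, nb_nb_self _ hq0] at hr'
      have h5 := φ.injective hr'
      have h6 : q ∉ (nb (nb A p0) q).1 := not_mem_nb_self _ hq1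
      rw [h5] at h6
      exact h6 hq
    · exact ⟨0, fun h => absurd h hq⟩
  choose g hg using hg
  let s : ZMod (2 * k + 1) → ZMod (2 * k + 1) := fun x => if x ∈ A.1 then g x else f x
  have hsA : ∀ x, x ∈ A.1 → s x = g x := fun x hx => if_pos hx
  have hsB : ∀ x, x ∉ A.1 → s x = f x := fun x hx => if_neg hx
  have hinj : Function.Injective s := by
    intro x y hxy
    by_cases hx : x ∈ A.1 <;> by_cases hy : y ∈ A.1
    · rw [hsA x hx, hsA y hy] at hxy
      have h1 := (hg x hx).2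
      have h2 := (hg y hy).2
      rw [hxy, ← h2] at h1
      have h3 := φ.injective h1
      have hx1 : x ∉ (nb A p0).1 := not_mem_nb_of_mem A hp0 hx
      have hy1 : y ∉ (nb A p0).1 := not_mem_nb_of_mem A hp0 hy
      by_contra hne
      have h4 : x ∈ (nb (nb A p0) y).1 := (mem_nb _ hy1).2 ⟨hne, hx1⟩
      rw [← h3] at h4
      exact not_mem_nb_self _ hx1 h4
    · rw [hsA x hx, hsB y hy] at hxy
      exact absurd (hxy ▸ (hg x hx).1) (hf y hy).1
    · rw [hsB x hx, hsA y hy] at hxy
      exact absurd (hxy ▸ (hg y hy).1) (hf x hx).1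
    · rw [hsB x hx, hsB y hy] at hxy
      have h1 := (hf x hx).2
      have h2 := (hf y hy).2
      rw [hxy, ← h2] at h1
      have h3 := φ.injective h1
      by_contra hne
      have h4 : x ∈ (nb A y).1 := (mem_nb _ hy).2 ⟨hne, hx⟩
      rw [← h3] at h4
      exact not_mem_nb_self _ hx h4
  let σ : Equiv.Perm (ZMod (2 * k + 1)) :=
    Equiv.ofBijective s (Finite.injective_iff_bijective.1 hinj)
  have hσ : ∀ x, σ x = s x := fun x => rfl
  have hσA : permHom k σ A = φ A := by
    apply Subtype.ext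
    apply eq_of_subset_of_card_le
    · intro x hx
      rw [mem_permHom] at hx
      have h1 := (hg _ hx).1
      rw [← hsA _ hx, ← hσ, Equiv.apply_symm_apply] at h1
      exact h1
    · rw [(φ A).2, (permHom k σ A).2]
  have hσnb : ∀ (B : V k) (p : ZMod (2 * k + 1)), p ∉ B.1 →
      permHom k σ (nb B p) = nb (permHom k σ B) (σ p) := by
    intro B p hp
    have hp' : σ p ∉ (permHom k σ B).1 := by
      rw [mem_permHom, Equiv.symm_apply_apply]; exact hp
    apply Subtype.ext
    ext x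
    rw [mem_permHom, mem_nb B hp, mem_nb _ hp', mem_permHom]
    constructor
    · rintro ⟨h1, h2⟩
      exact ⟨fun h => h1 (by rw [h, Equiv.symm_apply_apply]), h2⟩
    · rintro ⟨h1, h2⟩
      exact ⟨fun h => h1 (by rw [← h, Equiv.apply_symm_apply]), h2⟩
  refine ⟨σ, ?_⟩
  -- ψ = σ⁻¹ φ
  let ψ : oddGraph k ≃g oddGraph k := (permHom k σ)⁻¹ * φ
  have hψ : ∀ B C : V k, φ B = permHom k σ C → ψ B = C := by
    intro B C h
    change ((permHom k σ)⁻¹) (φ B) = C
    rw [h]
    exact (permHom k σ).symm_apply_apply C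
  have hball : FixBall ψ A := by
    refine fixBall_of hk ψ A (hψ _ _ hσA.symm) ?_ hp0 ?_
    · intro a ha
      apply hψ
      rw [(hf a ha).2, hσnb A a ha, hσA, hσ, hsB a ha]
    · intro c hc
      apply hψ
      have hc1 : c ∉ (nb A p0).1 := not_mem_nb_of_mem A hp0 hc
      rw [(hg c hc).2, hσnb _ c hc1, hσnb A p0 hp0, hσA, hσ, hσ, hsA c hc, hsB p0 hp0]
  have h1 : ψ = 1 := by
    ext B
    rw [(fixBall_all hk ψ A hball B).1]
    rfl
  have h2 : (permHom k σ) * ψ = φ := by
    change (permHom k σ) * ((permHom k σ)⁻¹ * φ) = φ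
    rw [mul_inv_cancel_left]
  rw [← h2, h1, mul_one]

end Pool.Agent.Work.MP_8f87b2_co
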