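import Mathlib

/-!
# MP_8f87b2_co, definitions (helper30)

The odd graph on the `k`-subsets of `ZMod (2k+1)`, Hamilton cycles, the automorphisms which preserve
a Hamilton cycle, and the set of orders of cyclic subgroups of them (`kappa` is its maximum).
-/

namespace Pool.Agent.Work.MP_8f87b2_co

/-- The vertices of the odd graph `O_k`: the `k`-element subsets of `ZMod (2k+1)`. -/
abbrev V (k : ℕ) := {A : Finset (ZMod (2 * k + 1)) // A.card = k}

/-- The odd graph `O_k`: two different `k`-subsets are adjacent when they are disjoint. -/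
def oddGraph (k : ℕ) : SimpleGraph (V k) where
  Adj A B := A ≠ B ∧ Disjoint A.1 B.1
  symm := ⟨fun _ _ h => ⟨h.1.symm, h.2.symm⟩⟩
  loopless := ⟨fun _ h => h.1 rfl⟩

/-- A Hamilton cycle of a graph: a cyclic enumeration `c 0, c 1, .., c (N-1)` of all vertices,
`N ≥ 3`, such that consecutive vertices are adjacent. -/
structure HamCycle {W : Type*} (G : SimpleGraph W) where
  /-- the length -/
  N : ℕ
  three_le : 3 ≤ N
  /-- the enumeration -/
  c : ZMod N → W
  bij : Function.Bijective c
  adj : ∀ i, G.Adj (c i) (c (i + 1))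

/-- The edge set of a Hamilton cycle. -/
def HamCycle.edgeSet {W : Type*} {G : SimpleGraph W} (C : HamCycle G) : Set (Sym2 W) :=
  {e | ∃ i, e = s(C.c i, C.c (i + 1))}

/-- `φ` preserves the Hamilton cycle `C`: it maps the edge set of `C` onto itself. -/
def Preserves {W : Type*} {G : SimpleGraph W} (φ : G ≃g G) (C : HamCycle G) : Prop :=
  Sym2.map φ '' C.edgeSet = C.edgeSet

/-- The orders of the cyclic subgroups of `Aut(G,C)`, `C` any Hamilton cycle of `G`.
The Hamilton compression `κ(G)` is the greatest element of this set. -/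
def compressionSet {W : Type*} (G : SimpleGraph W) : Set ℕ :=
  {m | ∃ C : HamCycle G, ∃ H : Subgroup (G ≃g G),
    IsCyclic H ∧ Nat.card H = m ∧ ∀ φ ∈ H, Preserves φ C}

end Pool.Agent.Work.MP_8f87b2_co
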