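import Pool.Agent.Work.MP_8f87b2_co.Defs

/-!
# An automorphism of order at least 3 preserving a Hamilton cycle acts freely
-/

namespace Pool.Agent.Work.MP_8f87b2_co

variable {W : Type*} {G : SimpleGraph W}

theorem HamCycle.step_mem (C : HamCycle G) (i : ZMod C.N) : s(C.c i, C.c (i + 1)) ∈ C.edgeSet :=
  ⟨i, rfl⟩

theorem HamCycle.mem_edgeSet_iff (C : HamCycle G) (i j : ZMod C.N) :
    s(C.c i, C.c j) ∈ C.edgeSet ↔ j = i + 1 ∨ i = j + 1 := by
  constructor
  · rintro ⟨l, hl⟩
    rw [Sym2.eq_iff] at hl
    rcases hl with ⟨h1, h2⟩ | ⟨h1, h2⟩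
    · have e1 := C.bij.1 h1
      have e2 := C.bij.1 h2
      left; rw [e2, e1]
    · have e1 := C.bij.1 h1
      have e2 := C.bij.1 h2
      right; rw [e1, e2]
  · rintro (h | h)
    · rw [h]; exact C.step_mem i
    · rw [h, Sym2.eq_swap]; exact C.step_mem j

/-- an automorphism preserving `C` acts on the indices as a rotation or a reflection -/
theorem exists_rot_or_refl (C : HamCycle G) (φ : G ≃g G) (hφ : Preserves φ C) :
    ∃ a : ZMod C.N, (∀ i, φ (C.c i) = C.c (a + i)) ∨ (∀ i, φ (C.c i) = C.c (a - i)) := by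
  have h3 := C.three_le
  have hN0 : C.N ≠ 0 := by omega
  haveI : NeZero C.N := ⟨hN0⟩
  let e := Equiv.ofBijective C.c C.bij
  let ψ : ZMod C.N → ZMod C.N := fun i => e.symm (φ (C.c i))
  have hψ : ∀ i, C.c (ψ i) = φ (C.c i) := fun i => e.apply_symm_apply _
  have hinj : Function.Injective ψ := by
    intro i j hij
    have : φ (C.c i) = φ (C.c j) := by rw [← hψ i, ← hψ j, hij]
    exact C.bij.1 (φ.injective this)
  have hstep : ∀ i, ψ (i + 1) = ψ i + 1 ∨ ψ i = ψ (i + 1) + 1 := by
    intro i
    have hm : Sym2.map φ s(C.c i, C.c (i + 1)) ∈ Sym2.map φ '' C.edgeSet :=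
      ⟨_, C.step_mem i, rfl⟩
    rw [hφ, Sym2.map_mk] at hm
    have hm' : s(C.c (ψ i), C.c (ψ (i + 1))) ∈ C.edgeSet := by
      rw [hψ, hψ]; exact hm
    exact (C.mem_edgeSet_iff _ _).1 hm'
  have h2 : (2 : ZMod C.N) ≠ 0 := by
    intro h
    have : ((2 : ℕ) : ZMod C.N) = 0 := by exact_mod_cast h
    rw [ZMod.natCast_eq_zero_iff] at this
    have := Nat.le_of_dvd (by norm_num) this
    omega
  rcases hstep 0 with h | h
  · refine ⟨ψ 0, Or.inl ?_⟩
    have key : ∀ n : ℕ, ψ (n : ZMod C.N) = ψ 0 + n ∧ ψ ((n : ZMod C.N) + 1) = ψ 0 + n + 1 := by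
      intro n
      induction n with
      | zero => simpa using h
      | succ n ih =>
        refine ⟨?_, ?_⟩
        · push_cast; rw [ih.2]; ring
        · push_cast
          rcases hstep ((n : ZMod C.N) + 1) with h' | h'
          · rw [h', ih.2]; ring
          · exfalso
            have h1 : ψ ((n : ZMod C.N) + 1 + 1) = ψ (n : ZMod C.N) := by
              have := h'.symm.trans ih.2
              rw [ih.1]
              exact add_right_cancel this
            have h4 := hinj h1
            apply h2
            have : (n : ZMod C.N) + 2 = n + 0 := by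
              rw [add_zero]; calc (n : ZMod C.N) + 2 = n + 1 + 1 := by ring
                _ = n := h4
            exact add_left_cancel this
    intro i
    have := (key i.val).1
    rw [ZMod.natCast_zmod_val] at this
    rw [← hψ, this]
  · refine ⟨ψ 0, Or.inr ?_⟩
    have key : ∀ n : ℕ, ψ (n : ZMod C.N) = ψ 0 - n ∧ ψ ((n : ZMod C.N) + 1) = ψ 0 - n - 1 := by
      intro n
      induction n with
      | zero =>
        refine ⟨by simp, ?_⟩
        have h' : ψ 0 = ψ (0 + 1) + 1 := h
        simp only [Nat.cast_zero, sub_zero]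
        rw [h']; ring
      | succ n ih =>
        refine ⟨?_, ?_⟩
        · push_cast; rw [ih.2]; ring
        · push_cast
          rcases hstep ((n : ZMod C.N) + 1) with h' | h'
          · exfalso
            have h1 : ψ ((n : ZMod C.N) + 1 + 1) = ψ (n : ZMod C.N) := by
              rw [h', ih.1, ih.2]; ring
            have h4 := hinj h1
            apply h2
            have : (n : ZMod C.N) + 2 = n + 0 := by
              rw [add_zero]; calc (n : ZMod C.N) + 2 = n + 1 + 1 := by ring
                _ = n := h4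
            exact add_left_cancel this
          · have : ψ ((n : ZMod C.N) + 1 + 1) = ψ ((n : ZMod C.N) + 1) - 1 := by
              rw [h']; ring
            rw [this, ih.2]; ring
    intro i
    have := (key i.val).1
    rw [ZMod.natCast_zmod_val] at this
    rw [← hψ, this]

theorem pow_rot (C : HamCycle G) (φ : G ≃g G) (a : ZMod C.N)
    (h : ∀ i, φ (C.c i) = C.c (a + i)) (j : ℕ) (i : ZMod C.N) :
    (φ ^ j) (C.c i) = C.c (j * a + i) := by
  induction j generalizing i with
  | zero => simp
  | succ j ih =>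
    rw [pow_succ, RelIso.coe_mul, Function.comp, h, ih]
    congr 1; push_cast; ring

/-- a power of `φ` with a fixed vertex is the identity, if `φ` has order at least 3 -/
theorem free_of_preserves (C : HamCycle G) (φ : G ≃g G) (hφ : Preserves φ C)
    (h3 : φ ^ 2 ≠ 1) (j : ℕ) (A : W) (hA : (φ ^ j) A = A) : φ ^ j = 1 := by
  obtain ⟨a, h | h⟩ := exists_rot_or_refl C φ hφ
  · obtain ⟨i, rfl⟩ := C.bij.2 A
    rw [pow_rot C φ a h] at hA
    have h0 : (j : ZMod C.N) * a = 0 := by
      have := C.bij.1 hA
      have h' : (j : ZMod C.N) * a + i = 0 + i := by rw [this, zero_add]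
      exact add_right_cancel h'
    ext B
    obtain ⟨i', rfl⟩ := C.bij.2 B
    rw [pow_rot C φ a h, h0, zero_add]
    rfl
  · exfalso
    apply h3
    ext B
    obtain ⟨i', rfl⟩ := C.bij.2 B
    rw [pow_two, RelIso.coe_mul, Function.comp, h, h, sub_sub_cancel]
    rfl

end Pool.Agent.Work.MP_8f87b2_co
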