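import Mathlib

/-!
# A permutation of `2k+1` points all of whose powers `≠ 1` preserve no `k`-subset has order `≤ 2k+1`
-/

namespace Pool.Agent.Work.MP_8f87b2_co

open Finset

variable {X : Type*} [Fintype X] [DecidableEq X]

theorem orbit_card (τ : Equiv.Perm X) {p : ℕ} (hp : p.Prime) (hτ : τ ^ p = 1) {x : X}
    (hx : τ x ≠ x) : ((range p).image (fun j => (τ ^ j) x)).card = p := by
  haveI : Fact p.Prime := ⟨hp⟩
  have hmin : Function.minimalPeriod τ x = p := by
    apply Function.minimalPeriod_eq_prime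
    · change (τ^[p]) x = x
      rw [Equiv.Perm.iterate_eq_pow, hτ]; rfl
    · exact hx
  rw [card_image_of_injOn, card_range]
  intro i hi j hj hij
  rw [coe_range, Set.mem_Iio] at hi hj
  have h := (Function.iterate_injOn_Iio_minimalPeriod (f := τ) (x := x))
  apply h (by rw [hmin]; exact hi) (by rw [hmin]; exact hj)
  change (τ^[i]) x = (τ^[j]) x
  rw [Equiv.Perm.iterate_eq_pow, Equiv.Perm.iterate_eq_pow]
  exact hij

theorem exists_invariant (τ : Equiv.Perm X) {p : ℕ} (hp : p.Prime) (hτ : τ ^ p = 1) (i : ℕ)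
    (hi : i * p ≤ (univ.filter (fun x => τ x ≠ x)).card) :
    ∃ I : Finset X, I ⊆ univ.filter (fun x => τ x ≠ x) ∧ (∀ x, τ x ∈ I ↔ x ∈ I) ∧
      I.card = i * p := by
  induction i with
  | zero => exact ⟨∅, empty_subset _, fun x => by simp, by simp⟩
  | succ i ih =>
    obtain ⟨I, hI, hinv, hc⟩ := ih (le_trans (Nat.mul_le_mul_right _ (Nat.le_succ i)) hi)
    have hlt : I.card < (univ.filter (fun x => τ x ≠ x)).card := by
      rw [hc]
      refine lt_of_lt_of_le ?_ hi
      have := hp.pos
      exact Nat.mul_lt_mul_of_pos_right (Nat.lt_succ_self i) this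
    obtain ⟨x, hx, hxI⟩ := exists_mem_notMem_of_card_lt_card hlt
    have hxm : τ x ≠ x := (mem_filter.1 hx).2
    let O := (range p).image (fun j => (τ ^ j) x)
    have hOc : O.card = p := orbit_card τ hp hτ hxm
    have hpow : ∀ j y, (τ ^ j) y ∈ I ↔ y ∈ I := by
      intro j
      induction j with
      | zero => intro y; simp
      | succ j ih => intro y; rw [pow_succ, Equiv.Perm.mul_apply, ih, hinv]
    have hOinv : ∀ y, τ y ∈ O ↔ y ∈ O := by
      have hfw : ∀ y, y ∈ O → τ y ∈ O := by
        intro y hy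
        obtain ⟨j, hj, rfl⟩ := mem_image.1 hy
        rw [mem_range] at hj
        rw [← Equiv.Perm.mul_apply, ← pow_succ']
        rcases Nat.lt_or_ge (j + 1) p with h | h
        · exact mem_image.2 ⟨j + 1, mem_range.2 h, rfl⟩
        · have : j + 1 = p := by omega
          rw [this, hτ]
          exact mem_image.2 ⟨0, mem_range.2 hp.pos, by simp⟩
      intro y
      refine ⟨fun h => ?_, hfw y⟩
      have h2 : ∀ j, (τ ^ j) (τ y) ∈ O := by
        intro j
        induction j with
        | zero => simpa using h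
        | succ j ih => rw [pow_succ', Equiv.Perm.mul_apply]; exact hfw _ ih
      have h3 := h2 (p - 1)
      rw [← Equiv.Perm.mul_apply, ← pow_succ, Nat.sub_add_cancel hp.one_le, hτ] at h3
      simpa using h3
    have hdis : Disjoint I O := by
      rw [disjoint_left]
      intro y hyI hyO
      obtain ⟨j, -, rfl⟩ := mem_image.1 hyO
      exact hxI ((hpow j x).1 hyI)
    refine ⟨I ∪ O, ?_, ?_, ?_⟩
    · apply union_subset hI
      intro y hy
      obtain ⟨j, -, rfl⟩ := mem_image.1 hy
      rw [mem_filter]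
      refine ⟨mem_univ _, fun h => hxm ?_⟩
      have h' : (τ ^ j) (τ x) = (τ ^ j) x := by
        rw [← Equiv.Perm.mul_apply, ← pow_succ, pow_succ', Equiv.Perm.mul_apply]; exact h
      exact (τ ^ j).injective h'
    · intro y
      rw [mem_union, mem_union, hinv, hOinv]
    · rw [card_union_of_disjoint hdis, hc, hOc]; ring

theorem card_fixed_add_two_le (τ : Equiv.Perm X) {k p : ℕ} (hX : Fintype.card X = 2 * k + 1)
    (hp : p.Prime) (hτ : τ ^ p = 1)
    (hno : ∀ I : Finset X, I.card = k → ¬ ∀ x, τ x ∈ I ↔ x ∈ I) :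
    (univ.filter (fun x => τ x = x)).card + 2 ≤ p := by
  by_contra hlt
  set f := (univ.filter (fun x => τ x = x)).card with hf
  set m := (univ.filter (fun x => τ x ≠ x)).card with hm
  have hfm : f + m = 2 * k + 1 := by
    rw [hf, hm, ← hX, ← card_univ, card_filter_add_card_filter_not]
  have hp2 := hp.two_le
  let i := min (k / p) (m / p)
  have hi : i * p ≤ m := le_trans (Nat.mul_le_mul_right _ (min_le_right _ _)) (Nat.div_mul_le_self _ _)
  have hik : i * p ≤ k := le_trans (Nat.mul_le_mul_right _ (min_le_left _ _)) (Nat.div_mul_le_self _ _)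
  obtain ⟨I, hI, hinv, hc⟩ := exists_invariant τ hp hτ i hi
  have hdvd : m / p * p = m := by
    -- the moved points are a union of orbits
    obtain ⟨J, hJ, hJinv, hJc⟩ := exists_invariant τ hp hτ (m / p) (Nat.div_mul_le_self _ _)
    by_contra hne
    have hlt' : m / p * p < m := lt_of_le_of_ne (Nat.div_mul_le_self _ _) hne
    have hlt2 : J.card < (univ.filter (fun x => τ x ≠ x)).card := by rw [hJc]; exact hlt'
    obtain ⟨x, hx, hxJ⟩ := exists_mem_notMem_of_card_lt_card hlt2
    have hxm : τ x ≠ x := (mem_filter.1 hx).2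
    have hOc : ((range p).image (fun j => (τ ^ j) x)).card = p := orbit_card τ hp hτ hxm
    have hpow : ∀ j y, (τ ^ j) y ∈ J ↔ y ∈ J := by
      intro j
      induction j with
      | zero => intro y; simp
      | succ j ih => intro y; rw [pow_succ, Equiv.Perm.mul_apply, ih, hJinv]
    have hdis : Disjoint J ((range p).image (fun j => (τ ^ j) x)) := by
      rw [disjoint_left]
      intro y hyI hyO
      obtain ⟨j, -, rfl⟩ := mem_image.1 hyO
      exact hxJ ((hpow j x).1 hyI)
    have hsub : J ∪ ((range p).image (fun j => (τ ^ j) x)) ⊆ univ.filter (fun x => τ x ≠ x) := by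
      apply union_subset hJ
      intro y hy
      obtain ⟨j, -, rfl⟩ := mem_image.1 hy
      rw [mem_filter]
      refine ⟨mem_univ _, fun h => hxm ?_⟩
      have h' : (τ ^ j) (τ x) = (τ ^ j) x := by
        rw [← Equiv.Perm.mul_apply, ← pow_succ, pow_succ', Equiv.Perm.mul_apply]; exact h
      exact (τ ^ j).injective h'
    have h1 := card_le_card hsub
    rw [card_union_of_disjoint hdis, hJc, hOc, ← hm] at h1
    have h2 := Nat.mod_lt m hp.pos
    have h3 := Nat.div_add_mod m p
    have h4 : m / p * p = p * (m / p) := Nat.mul_comm _ _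
    omega
  have hle : k - i * p ≤ f := by
    rcases le_total (k / p) (m / p) with h | h
    · have hi' : i = k / p := min_eq_left h
      rw [hi']
      have h2 := Nat.mod_lt k hp.pos
      have h3 := Nat.div_add_mod k p
      have h4 : k / p * p = p * (k / p) := Nat.mul_comm _ _
      omega
    · have hi' : i = m / p := min_eq_right h
      rw [hi', hdvd]
      omega
  obtain ⟨F, hF, hFc⟩ := exists_subset_card_eq (s := univ.filter (fun x => τ x = x))
    (n := k - i * p) hle
  apply hno (I ∪ F)
  · rw [card_union_of_disjoint, hc, hFc]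
    · omega
    · rw [disjoint_left]
      intro x hxI hxF
      exact (mem_filter.1 (hI hxI)).2 (mem_filter.1 (hF hxF)).2
  · intro x
    rw [mem_union, mem_union, hinv]
    have : τ x ∈ F ↔ x ∈ F := by
      constructor
      · intro h
        have h1 := (mem_filter.1 (hF h)).2
        have h2 := τ.injective h1
        rwa [h2] at h
      · intro h
        have h1 := (mem_filter.1 (hF h)).2
        rwa [h1]
    rw [this]

theorem order_le (σ : Equiv.Perm X) {k m : ℕ} (hX : Fintype.card X = 2 * k + 1)
    (hm : orderOf σ = m) (hm1 : 1 < m)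
    (hno : ∀ j, σ ^ j ≠ 1 → ∀ I : Finset X, I.card = k → ¬ ∀ x, (σ ^ j) x ∈ I ↔ x ∈ I) :
    m ≤ 2 * k + 1 := by
  have hne : m.primeFactors.Nonempty := Nat.nonempty_primeFactors.2 hm1
  set P := m.primeFactors.max' hne with hP
  have hPm : P ∈ m.primeFactors := max'_mem _ _
  have hPp : P.Prime := Nat.prime_of_mem_primeFactors hPm
  have hPd : P ∣ m := Nat.dvd_of_mem_primeFactors hPm
  have hmpos : 0 < m := by omega
  have hquot : ∀ p, p.Prime → p ∣ m → σ ^ (m / p) ≠ 1 := by
    intro p hp hpm h
    have h1 := orderOf_dvd_of_pow_eq_one h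
    rw [hm] at h1
    have h2 := Nat.div_pos (Nat.le_of_dvd hmpos hpm) hp.pos
    have h3 := Nat.le_of_dvd h2 h1
    have h4 := Nat.div_lt_self hmpos hp.one_lt
    omega
  have hmp : ∀ p, p.Prime → p ∣ m → (σ ^ (m / p)) ^ p = 1 := by
    intro p _ hpm
    rw [← pow_mul, Nat.div_mul_cancel hpm, ← hm, pow_orderOf_eq_one]
  -- a point moved by σ^(m/P)
  obtain ⟨x, hx⟩ : ∃ x, (σ ^ (m / P)) x ≠ x := by
    by_contra h
    push Not at h
    exact hquot P hPp hPd (Equiv.ext h)
  set c := Function.minimalPeriod σ x with hc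
  have hper : ∀ j, (σ ^ j) x = x ↔ c ∣ j := by
    intro j
    rw [← Equiv.Perm.iterate_eq_pow]
    exact Function.isPeriodicPt_iff_minimalPeriod_dvd
  have hcm : c ∣ m := by
    rw [← hper, ← hm, pow_orderOf_eq_one]; rfl
  have hcpos : 0 < c := Nat.pos_of_dvd_of_pos hcm hmpos
  have hinjc : ((range c).image (fun j => (σ ^ j) x)).card = c := by
    rw [card_image_of_injOn, card_range]
    intro i hi j hj hij
    rw [coe_range, Set.mem_Iio] at hi hj
    have h := (Function.iterate_injOn_Iio_minimalPeriod (f := σ) (x := x))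
    apply h hi hj
    change (σ^[i]) x = (σ^[j]) x
    rw [Equiv.Perm.iterate_eq_pow, Equiv.Perm.iterate_eq_pow]
    exact hij
  have hceq : c = m := by
    by_contra hne'
    obtain ⟨d, hd⟩ := hcm
    have hd1 : d ≠ 1 := by
      rintro rfl; apply hne'; rw [hd, mul_one]
    obtain ⟨p, hp, hpd⟩ := Nat.exists_prime_and_dvd hd1
    have hpm : p ∣ m := by rw [hd]; exact Dvd.dvd.mul_left hpd c
    have hcp : c ∣ m / p := by
      obtain ⟨e, he⟩ := hpd
      refine ⟨e, ?_⟩
      rw [hd, he]
      have hp0 := hp.pos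
      rw [show c * (p * e) = p * (c * e) by ring, Nat.mul_div_cancel_left _ hp0]
    have hcP : ¬ c ∣ m / P := fun h => hx ((hper _).2 h)
    have hpP : p ≠ P := by rintro rfl; exact hcP hcp
    have hpleP : p ≤ P := le_max' _ _ (Nat.mem_primeFactors.2 ⟨hp, hpm, by omega⟩)
    -- P divides c
    have hPc : P ∣ c := by
      rw [hd] at hPd
      rcases hPp.dvd_mul.1 hPd with h | h
      · exact h
      · exfalso
        apply hcP
        obtain ⟨e, he⟩ := h
        refine ⟨e, ?_⟩
        rw [hd, he, show c * (P * e) = P * (c * e) by ring, Nat.mul_div_cancel_left _ hPp.pos]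
    have hPlec : P ≤ c := Nat.le_of_dvd hcpos hPc
    -- the fixed points of σ^(m/p)
    have hfix : c ≤ (univ.filter (fun y => (σ ^ (m / p)) y = y)).card := by
      rw [← hinjc]
      apply card_le_card
      intro y hy
      obtain ⟨j, -, rfl⟩ := mem_image.1 hy
      rw [mem_filter]
      refine ⟨mem_univ _, ?_⟩
      rw [← Equiv.Perm.mul_apply, ← pow_add, add_comm, pow_add, Equiv.Perm.mul_apply,
        (hper _).2 hcp]
    have h5 := card_fixed_add_two_le (σ ^ (m / p)) hX hp (hmp p hp hpm)
      (hno _ (hquot p hp hpm))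
    omega
  rw [← hceq, ← hinjc, ← hX, ← card_univ]
  exact card_le_card (subset_univ _)

end Pool.Agent.Work.MP_8f87b2_co
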