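import Pool.Agent.Work.MP_8f87b2_co.Reduce

/-!
# The permutation forms of the reduction
-/

namespace Pool.Agent.Work.MP_8f87b2_co

open Finset

variable {k : ℕ}

/-- the automorphisms preserving a Hamilton cycle form a subgroup -/
def stab {W : Type*} {G : SimpleGraph W} (C : HamCycle G) : Subgroup (G ≃g G) where
  carrier := {φ | Preserves φ C}
  one_mem' := by
    change Preserves 1 C
    unfold Preserves
    have : (Sym2.map ((1 : G ≃g G) : W → W)) = id := by
      funext e; exact Sym2.inductionOn e (fun a b => rfl)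
    rw [this, Set.image_id]
  mul_mem' := by
    intro φ ψ h1 h2
    change Preserves (φ * ψ) C
    unfold Preserves at *
    have : (Sym2.map ((φ * ψ : G ≃g G) : W → W)) = (Sym2.map φ) ∘ (Sym2.map ψ) := by
      funext e; exact Sym2.inductionOn e (fun a b => rfl)
    rw [this, Set.image_comp, h2, h1]
  inv_mem' := by
    intro φ h1
    change Preserves φ⁻¹ C
    unfold Preserves at *
    have : (Sym2.map ((φ⁻¹ : G ≃g G) : W → W)) ∘ (Sym2.map φ) = id := by
      funext e
      refine Sym2.inductionOn e (fun a b => ?_)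
      change s(φ.symm (φ a), φ.symm (φ b)) = s(a, b)
      rw [φ.symm_apply_apply, φ.symm_apply_apply]
    conv_lhs => rw [← h1]
    rw [← Set.image_comp, this, Set.image_id]

theorem shift_pow (v : ZMod (2 * k + 1)) (j : ℕ) (A : V k) :
    ((shift k v) ^ j) A = shift k (j * v) A := by
  induction j with
  | zero => rw [pow_zero, Nat.cast_zero, zero_mul, shift_zero]; rfl
  | succ j ih =>
    rw [pow_succ', RelIso.coe_mul, Function.comp, ih, shift_add]
    congr 1; push_cast; ring

/-- A permutation of the vertices of `O_k` which commutes with the shift, moves every vertex to a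
neighbour and is one cycle gives the symmetric Hamilton cycle. -/
theorem lower_of_perm (hk : 1 ≤ k) (G : Equiv.Perm (V k))
    (hadj : ∀ A, (oddGraph k).Adj A (G A))
    (hcomm : ∀ A, G (shift k 1 A) = shift k 1 (G A))
    (htrans : ∀ A B, ∃ i : ℕ, (G ^ i) A = B) :
    2 * k + 1 ∈ compressionSet (oddGraph k) := by
  classical
  have hchoose : 2 * k + 1 ≤ (2 * k + 1).choose k := by
    have h1 : (2 * k + 1).choose 1 ≤ (2 * k + 1).choose k := by
      have := Nat.choose_le_middle 1 (2 * k + 1)
      rwa [show (2 * k + 1) / 2 = k by omega] at this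
    rwa [Nat.choose_one_right] at h1
  have hcardV := card_V k
  have hne : Nonempty (V k) := by
    rw [← Fintype.card_pos_iff, hcardV]; omega
  obtain ⟨A0⟩ := hne
  set N := Fintype.card (V k) with hN
  have hN3 : 3 ≤ N := by omega
  haveI : NeZero N := ⟨by omega⟩
  -- the orbit of A0
  set c0 := Function.minimalPeriod G A0 with hc0
  have hper : (G ^ c0) A0 = A0 := by
    rw [← Equiv.Perm.iterate_eq_pow]
    exact Function.isPeriodicPt_minimalPeriod G A0
  have hc0pos : 0 < c0 := by
    rw [hc0]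
    apply Function.minimalPeriod_pos_of_mem_periodicPts
    exact Function.mem_periodicPts.2 ⟨orderOf G, orderOf_pos G, by
      change (G^[orderOf G]) A0 = A0
      rw [Equiv.Perm.iterate_eq_pow, pow_orderOf_eq_one]; rfl⟩
  have hmod : ∀ i, (G ^ (i % c0)) A0 = (G ^ i) A0 := by
    intro i
    conv_rhs => rw [← Nat.mod_add_div i c0]
    have : ∀ q, (G ^ (i % c0 + c0 * q)) A0 = (G ^ (i % c0)) A0 := by
      intro q
      induction q with
      | zero => rw [mul_zero, add_zero]
      | succ q ih =>
        rw [Nat.mul_succ, ← add_assoc, pow_add, Equiv.Perm.mul_apply, hper, ih]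
    rw [this]
  have hsurj : Function.Surjective (fun i : Fin c0 => (G ^ (i : ℕ)) A0) := by
    intro B
    obtain ⟨i, hi⟩ := htrans A0 B
    refine ⟨⟨i % c0, Nat.mod_lt _ hc0pos⟩, ?_⟩
    change (G ^ (i % c0)) A0 = B
    rw [hmod, hi]
  have hinj0 : Function.Injective (fun i : Fin c0 => (G ^ (i : ℕ)) A0) := by
    intro i j hij
    apply Fin.ext
    have h := (Function.iterate_injOn_Iio_minimalPeriod (f := G) (x := A0))
    apply h i.2 j.2
    change (G^[i]) A0 = (G^[j]) A0
    rw [Equiv.Perm.iterate_eq_pow, Equiv.Perm.iterate_eq_pow]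
    exact hij
  have hc0N : c0 = N := by
    have := Fintype.card_of_bijective ⟨hinj0, hsurj⟩
    rw [Fintype.card_fin] at this
    rw [this]
  let c : ZMod N → V k := fun i => (G ^ i.val) A0
  have hcc : ∀ i : ℕ, c (i : ZMod N) = (G ^ i) A0 := by
    intro i
    change (G ^ (i : ZMod N).val) A0 = _
    rw [ZMod.val_natCast, ← hc0N, hmod]
  have hcsurj : Function.Surjective c := by
    intro B
    obtain ⟨i, hi⟩ := htrans A0 B
    exact ⟨(i : ZMod N), by rw [hcc, hi]⟩
  have hcbij : Function.Bijective c := by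
    rw [Fintype.bijective_iff_surjective_and_card]
    exact ⟨hcsurj, by rw [ZMod.card]⟩
  have hnext : ∀ i, c (i + 1) = G (c i) := by
    intro i
    have h2 : c (i + 1) = (G ^ (i.val + 1)) A0 := by
      rw [← hcc]; congr 1; push_cast; rw [ZMod.natCast_zmod_val]
    rw [h2, pow_succ', Equiv.Perm.mul_apply]
  let C : HamCycle (oddGraph k) := ⟨N, hN3, c, hcbij, fun i => by rw [hnext]; exact hadj _⟩
  have hedge : ∀ e : Sym2 (V k), e ∈ C.edgeSet ↔ ∃ A, e = s(A, G A) := by
    intro e
    constructor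
    · rintro ⟨i, rfl⟩
      exact ⟨c i, by rw [← hnext]⟩
    · rintro ⟨A, rfl⟩
      obtain ⟨i, rfl⟩ := hcsurj A
      exact ⟨i, by rw [← hnext]⟩
  have hcomm' : ∀ A, G (shift k (-1) A) = shift k (-1) (G A) := by
    intro A
    have h := hcomm (shift k (-1) A)
    rw [shift_add, add_neg_cancel, shift_zero] at h
    rw [h, shift_add, neg_add_cancel, shift_zero]
  have hpres : Preserves (shift k 1) C := by
    unfold Preserves
    ext e
    constructor
    · rintro ⟨e', he', rfl⟩
      obtain ⟨A, rfl⟩ := (hedge e').1 he'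
      rw [hedge, Sym2.map_mk]
      exact ⟨shift k 1 A, by rw [hcomm]⟩
    · intro he
      obtain ⟨A, rfl⟩ := (hedge e).1 he
      refine ⟨s(shift k (-1) A, G (shift k (-1) A)), (hedge _).2 ⟨_, rfl⟩, ?_⟩
      rw [Sym2.map_mk, hcomm', shift_add, shift_add, add_neg_cancel, shift_zero, shift_zero]
  refine ⟨C, Subgroup.zpowers (shift k 1), inferInstance, ?_, ?_⟩
  · rw [Nat.card_zpowers, orderOf_shift hk isUnit_one]
  · intro φ hφ
    have h1 : shift k 1 ∈ stab C := hpres
    exact (Subgroup.zpowers_le.2 h1) hφ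

theorem comm_shift (G : Equiv.Perm (V k)) (hcomm : ∀ A, G (shift k 1 A) = shift k 1 (G A))
    (t : ZMod (2 * k + 1)) (A : V k) : G (shift k t A) = shift k t (G A) := by
  have key : ∀ j : ℕ, ∀ A, G (shift k (j : ZMod (2 * k + 1)) A) =
      shift k (j : ZMod (2 * k + 1)) (G A) := by
    intro j
    induction j with
    | zero => intro A; rw [Nat.cast_zero, shift_zero, shift_zero]
    | succ j ih =>
      intro A
      have e : ((j + 1 : ℕ) : ZMod (2 * k + 1)) = 1 + j := by push_cast; ring
      rw [e, ← shift_add, hcomm, ih, shift_add]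
  have := key t.val A
  rwa [ZMod.natCast_zmod_val] at this

theorem comm_shift_pow (G : Equiv.Perm (V k)) (hcomm : ∀ A, G (shift k 1 A) = shift k 1 (G A))
    (t : ZMod (2 * k + 1)) (i : ℕ) (A : V k) : (G ^ i) (shift k t A) = shift k t ((G ^ i) A) := by
  induction i generalizing A with
  | zero => simp
  | succ i ih => rw [pow_succ, Equiv.Perm.mul_apply, comm_shift G hcomm, ih, Equiv.Perm.mul_apply]

/-- The same with transitivity on the shift classes and a unit voltage. -/
theorem lower_of_perm_quot (hk : 1 ≤ k) (G : Equiv.Perm (V k))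
    (hadj : ∀ A, (oddGraph k).Adj A (G A))
    (hcomm : ∀ A, G (shift k 1 A) = shift k 1 (G A))
    (A0 : V k)
    (htrans : ∀ B, ∃ i : ℕ, ∃ t, (G ^ i) A0 = shift k t B)
    (M : ℕ) (v : ZMod (2 * k + 1)) (hv : IsUnit v) (hM : (G ^ M) A0 = shift k v A0) :
    2 * k + 1 ∈ compressionSet (oddGraph k) := by
  apply lower_of_perm hk G hadj hcomm
  have h1 : ∀ j : ℕ, (G ^ (M * j)) A0 = shift k (j * v) A0 := by
    intro j
    induction j with
    | zero => rw [mul_zero, pow_zero, Nat.cast_zero, zero_mul, shift_zero]; rfl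
    | succ j ih =>
      rw [Nat.mul_succ, pow_add, Equiv.Perm.mul_apply, hM, comm_shift_pow G hcomm, ih, shift_add]
      congr 1; push_cast; ring
  have h2 : ∀ t, ∃ i : ℕ, (G ^ i) A0 = shift k t A0 := by
    intro t
    obtain ⟨u, rfl⟩ := hv
    refine ⟨M * (t * (↑u⁻¹ : ZMod (2 * k + 1))).val, ?_⟩
    rw [h1, ZMod.natCast_zmod_val, mul_assoc, Units.inv_mul, mul_one]
  have h3 : ∀ B, ∃ i : ℕ, (G ^ i) A0 = B := by
    intro B
    obtain ⟨i, t, hi⟩ := htrans B
    obtain ⟨j, hj⟩ := h2 (-t)
    refine ⟨i + j, ?_⟩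
    rw [pow_add, Equiv.Perm.mul_apply, hj, comm_shift_pow G hcomm, hi, shift_add,
      neg_add_cancel, shift_zero]
  -- from transitivity from A0 to transitivity
  intro A B
  obtain ⟨i, hi⟩ := h3 A
  obtain ⟨j, hj⟩ := h3 B
  -- G has finite order
  have hord : (G ^ orderOf G) = 1 := pow_orderOf_eq_one G
  have hpos := orderOf_pos G
  refine ⟨j + (orderOf G * i - i), ?_⟩
  have h5 : i ≤ orderOf G * i := Nat.le_mul_of_pos_left i hpos
  have h6 : (G ^ (orderOf G * i - i)) A = A0 := by
    rw [← hi, ← Equiv.Perm.mul_apply, ← pow_add, Nat.sub_add_cancel h5, pow_mul, hord, one_pow]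
    rfl
  rw [pow_add, Equiv.Perm.mul_apply, h6, hj]

end Pool.Agent.Work.MP_8f87b2_co
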