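import Pool.Agent.Work.MP_8f87b2_co.Dihedral
import Pool.Agent.Work.MP_8f87b2_co.AutPerm
import Pool.Agent.Work.MP_8f87b2_co.Order

/-!
# `κ(O_k) ≤ 2k+1`
-/

namespace Pool.Agent.Work.MP_8f87b2_co

open Finset

theorem permHom_injective {k : ℕ} (hk : 1 ≤ k) : Function.Injective (permHom k) := by
  classical
  rw [injective_iff_map_eq_one]
  intro σ hσ
  by_contra hne
  have : ∃ x, σ x ≠ x := by
    by_contra h
    push Not at h
    exact hne (Equiv.ext h)
  obtain ⟨x, hx⟩ := this
  obtain ⟨S, hS1, hS2, hSc⟩ := exists_subsuperset_card_eq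
    (s := ({x} : Finset (ZMod (2 * k + 1)))) (t := univ.erase (σ x)) (n := k)
    (by
      intro y hy
      rw [mem_singleton] at hy
      subst hy
      exact mem_erase.2 ⟨fun h => hx h.symm, mem_univ _⟩)
    (by rw [card_singleton]; exact hk)
    (by rw [card_erase_of_mem (mem_univ _), card_univ, card_X]; omega)
  have h1 : permHom k σ ⟨S, hSc⟩ = ⟨S, hSc⟩ := by rw [hσ]; rfl
  have h2 : σ x ∈ (permHom k σ ⟨S, hSc⟩).1 := by
    rw [mem_permHom, Equiv.symm_apply_apply]
    exact hS1 (mem_singleton_self x)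
  rw [h1] at h2
  exact (mem_erase.1 (hS2 h2)).1 rfl

/-- the upper bound `κ(O_k) ≤ 2k+1` -/
theorem upper {k : ℕ} (hk : 1 ≤ k) {m : ℕ} (hm : m ∈ compressionSet (oddGraph k)) :
    m ≤ 2 * k + 1 := by
  classical
  obtain ⟨C, H, hcyc, hcard, hpres⟩ := hm
  rcases Nat.lt_or_ge m 3 with h3 | h3
  · omega
  obtain ⟨g, hg⟩ := hcyc.exists_generator
  have hord : orderOf g = m := by
    rw [orderOf_eq_card_of_forall_mem_zpowers hg, hcard]
  have hordφ : orderOf (g : oddGraph k ≃g oddGraph k) = m := by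
    rw [Subgroup.orderOf_coe, hord]
  have hφ : Preserves (g : oddGraph k ≃g oddGraph k) C := hpres _ g.2
  obtain ⟨σ, hσ⟩ := exists_perm hk (g : oddGraph k ≃g oddGraph k)
  have hordσ : orderOf σ = m := by
    rw [← orderOf_injective (permHom k) (permHom_injective hk) σ, ← hσ, hordφ]
  have h2 : (g : oddGraph k ≃g oddGraph k) ^ 2 ≠ 1 := by
    intro h
    have := orderOf_dvd_of_pow_eq_one h
    rw [hordφ] at this
    have := Nat.le_of_dvd (by norm_num) this
    omega
  refine order_le σ (card_X k) hordσ (by omega) ?_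
  intro j hj I hI hinv
  apply hj
  apply permHom_injective hk
  rw [map_one, map_pow, ← hσ]
  apply free_of_preserves C _ hφ h2 j ⟨I, hI⟩
  rw [hσ, ← map_pow]
  apply Subtype.ext
  ext x
  rw [mem_permHom]
  have h5 := hinv ((σ ^ j).symm x)
  rw [Equiv.apply_symm_apply] at h5
  exact h5.symm

end Pool.Agent.Work.MP_8f87b2_co
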